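import Pool.Agent.K1H76.OM.Stm

set_option autoImplicit false

/-! Project OM: the limsup is the supremum. -/

namespace Pool.Agent.K1H98.OM

open Filter Topology
open Pool.Agent.K1H76.OM (S T G S_LIM S_SUP)

theorem limsup_eq {F : ℝ → ℝ} {M : ℝ} (h1 : ∀ ε > 0, ∀ᶠ x in atTop, F x ≤ M + ε)
    (h2 : ∀ ε > 0, ∃ᶠ x in atTop, M - ε ≤ F x) :
    limsup (fun x => ((F x : ℝ) : EReal)) atTop = (M : EReal) := by
  apply le_antisymm
  · refine EReal.le_of_forall_lt_iff_le.1 fun z hz => ?_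
    have hz' : M < z := by exact_mod_cast hz
    refine limsup_le_of_le (by isBoundedDefault) ((h1 (z - M) (by linarith)).mono fun x hx => ?_)
    have : F x ≤ z := by linarith
    exact_mod_cast this
  · refine EReal.ge_of_forall_gt_iff_ge.1 fun z hz => ?_
    have hz' : z < M := by exact_mod_cast hz
    refine le_limsup_of_frequently_le ((h2 (M - z) (by linarith)).mono fun x hx => ?_)
      (by isBoundedDefault)
    have : z ≤ F x := by linarith
    exact_mod_cast this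

theorem liminf_eq {F : ℝ → ℝ} {M : ℝ} (h1 : ∀ ε > 0, ∀ᶠ x in atTop, M - ε ≤ F x)
    (h2 : ∀ ε > 0, ∃ᶠ x in atTop, F x ≤ M + ε) :
    liminf (fun x => ((F x : ℝ) : EReal)) atTop = (M : EReal) := by
  apply le_antisymm
  · refine EReal.le_of_forall_lt_iff_le.1 fun z hz => ?_
    have hz' : M < z := by exact_mod_cast hz
    refine liminf_le_of_frequently_le ((h2 (z - M) (by linarith)).mono fun x hx => ?_)
      (by isBoundedDefault)
    have : F x ≤ z := by linarith
    exact_mod_cast this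
  · refine EReal.ge_of_forall_gt_iff_ge.1 fun z hz => ?_
    have hz' : z < M := by exact_mod_cast hz
    refine le_liminf_of_le (by isBoundedDefault) ((h1 (M - z) (by linarith)).mono fun x hx => ?_)
    have : z ≤ F x := by linarith
    exact_mod_cast this

theorem S_one {y : ℝ} (h1 : 1 ≤ y) (h2 : y < 2) : S y = 1 := by
  have : ⌊y⌋₊ = 1 := by
    rw [Nat.floor_eq_iff (by linarith)]
    constructor
    · simpa using h1
    · norm_num
      exact h2
  unfold S
  rw [this]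
  simp

theorem parity (g : ℝ) : ∃ r : ℕ, ∀ m : ℕ, (-1 : ℝ) ^ (2 * m + r) * g = |g| := by
  rcases le_total 0 g with h | h
  · refine ⟨0, fun m => ?_⟩
    rw [add_zero, pow_mul, abs_of_nonneg h]
    norm_num
  · refine ⟨1, fun m => ?_⟩
    rw [pow_add, pow_mul, abs_of_nonpos h]
    norm_num

theorem parity' (s g : ℝ) (hs : s = 1 ∨ s = -1) : ∃ r : ℕ, ∀ m : ℕ,
    s * ((-1 : ℝ) ^ (2 * m + r) * g) = |g| := by
  obtain ⟨r, hr⟩ := parity (s * g)
  refine ⟨r, fun m => ?_⟩
  have h := hr m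
  have e : |s * g| = |g| := by
    rcases hs with rfl | rfl
    · simp
    · simp
  rw [e] at h
  rw [← h]
  ring

variable (hL : S_LIM)

include hL

theorem bdd : BddAbove ((fun y => |G y|) '' Set.Ico 1 2) := by
  obtain ⟨C, hC⟩ := hL.2 0
  refine ⟨C + 1, ?_⟩
  rintro _ ⟨y, hy, rfl⟩
  have h := hC 0 y hy.1 hy.2
  simp only [pow_zero, one_mul, div_one] at h
  rw [S_one hy.1 hy.2] at h
  have hy1 := hy.1
  have h1 : 1 / y ≤ 1 := by
    rw [div_le_one (by linarith)]
    exact hy.1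
  have h2 : 0 < 1 / y := by positivity
  have h3 := abs_le.1 h
  show |G y| ≤ C + 1
  rw [abs_le]
  constructor <;> linarith [h3.1, h3.2]

theorem upper (ε : ℝ) (hε : 0 < ε) : ∀ᶠ x : ℝ in atTop,
    |S x| / x ≤ sSup ((fun y => |G y|) '' Set.Ico 1 2) + ε := by
  obtain ⟨C, hC⟩ := hL.2 1
  obtain ⟨N, hN⟩ := exists_nat_ge (|C| / ε)
  filter_upwards [eventually_ge_atTop ((2 : ℝ) ^ N)] with x hx
  have hx1 : 1 ≤ x := (one_le_pow₀ (by norm_num)).trans hx
  obtain ⟨n, hn1, hn2⟩ := exists_nat_pow_near hx1 (one_lt_two : (1 : ℝ) < 2)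
  have hnN : N ≤ n := by
    by_contra h
    have h1 : n + 1 ≤ N := by omega
    have h2 : (2 : ℝ) ^ (n + 1) ≤ 2 ^ N := pow_le_pow_right₀ (by norm_num) h1
    linarith
  have h2n : (0 : ℝ) < 2 ^ n := by positivity
  set y := x / 2 ^ n with hy
  have hy1 : 1 ≤ y := by rw [hy, one_le_div h2n]; exact hn1
  have hy2 : y < 2 := by
    rw [hy, div_lt_iff₀ h2n]
    rw [pow_succ] at hn2
    linarith
  have hxy : 2 ^ n * y = x := by rw [hy]; field_simp
  have h := hC n y hy1 hy2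
  rw [hxy, pow_one] at h
  have hM : |G y| ≤ sSup ((fun y => |G y|) '' Set.Ico 1 2) :=
    le_csSup (bdd hL) ⟨y, ⟨hy1, hy2⟩, rfl⟩
  have e1 : |S x| / x = |S x / x| := by rw [abs_div, abs_of_pos (by linarith : 0 < x)]
  have e2 : |(-1 : ℝ) ^ n * G y| = |G y| := by rw [abs_mul, abs_pow]; simp
  have h3 : |S x / x| ≤ |S x / x - (-1) ^ n * G y| + |(-1 : ℝ) ^ n * G y| := by
    have := abs_add_le (S x / x - (-1) ^ n * G y) ((-1 : ℝ) ^ n * G y)
    rwa [sub_add_cancel] at this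
  have hn0 : (0 : ℝ) < (n : ℝ) + 1 := by positivity
  have h4 : C / ((n : ℝ) + 1) ≤ ε := by
    rw [div_le_iff₀ hn0]
    have h5 : |C| / ε ≤ n := hN.trans (by exact_mod_cast hnN)
    rw [div_le_iff₀ hε] at h5
    have h6 := le_abs_self C
    nlinarith
  rw [e1]
  linarith

theorem lower (s : ℝ) (hs : s = 1 ∨ s = -1) (ε : ℝ) (hε : 0 < ε) (X : ℝ) : ∃ x : ℝ, X ≤ x ∧ 1 ≤ x ∧
    sSup ((fun y => |G y|) '' Set.Ico 1 2) - ε ≤ s * (S x / x) := by
  obtain ⟨C, hC⟩ := hL.2 1
  have hne : ((fun y => |G y|) '' Set.Ico 1 2).Nonempty :=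
    ⟨_, 1, ⟨le_refl (1 : ℝ), by norm_num⟩, rfl⟩
  obtain ⟨_, ⟨y, hy, rfl⟩, hy'⟩ := exists_lt_of_lt_csSup hne
    (show sSup ((fun y => |G y|) '' Set.Ico 1 2) - ε / 2 < sSup ((fun y => |G y|) '' Set.Ico 1 2)
      by linarith)
  have hy' : sSup ((fun y => |G y|) '' Set.Ico 1 2) - ε / 2 < |G y| := hy'
  obtain ⟨r, hr⟩ := parity' s (G y) hs
  obtain ⟨N, hN⟩ := exists_nat_ge (max X (|C| / (ε / 2)))
  set k := 2 * N + r with hk
  have hNk : (N : ℝ) ≤ k := by
    have : N ≤ k := by omega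
    exact_mod_cast this
  have hk2 : (k : ℝ) ≤ 2 ^ k := by
    have : k < 2 ^ k := Nat.lt_two_pow_self
    exact_mod_cast this.le
  have h2k : (1 : ℝ) ≤ 2 ^ k := one_le_pow₀ (by norm_num)
  have hy1 := hy.1
  have hkx : (2 : ℝ) ^ k ≤ 2 ^ k * y := by nlinarith
  refine ⟨2 ^ k * y, ?_, by linarith, ?_⟩
  · have := le_max_left X (|C| / (ε / 2))
    linarith
  · have h := hC k y hy.1 hy.2
    rw [pow_one] at h
    have hr' := hr N
    rw [← hk] at hr'
    have hn0 : (0 : ℝ) < (k : ℝ) + 1 := by positivity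
    have h4 : C / ((k : ℝ) + 1) ≤ ε / 2 := by
      rw [div_le_iff₀ hn0]
      have h5 : |C| / (ε / 2) ≤ k := ((le_max_right X _).trans hN).trans hNk
      rw [div_le_iff₀ (by linarith)] at h5
      have h6 := le_abs_self C
      nlinarith
    have h7 : abs (s * (S (2 ^ k * y) / (2 ^ k * y)) - abs (G y)) ≤ C / ((k : ℝ) + 1) := by
      rw [← hr', ← mul_sub, abs_mul]
      have : |s| = 1 := by rcases hs with rfl | rfl <;> simp
      rw [this, one_mul]
      exact h
    have h8 := (abs_le.1 h7).1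
    linarith

theorem t_SUP : S_SUP := by
  set M := sSup ((fun y => |G y|) '' Set.Ico 1 2) with hM
  have hup := upper hL
  have hlo := lower hL
  have hb : ∀ᶠ x : ℝ in atTop, 1 ≤ x := eventually_ge_atTop 1
  refine ⟨bdd hL, ?_, ?_, ?_⟩
  · refine limsup_eq hup fun ε hε => ?_
    rw [frequently_atTop]
    intro X
    obtain ⟨x, h1, h2, h3⟩ := hlo 1 (Or.inl rfl) ε hε X
    refine ⟨x, h1, h3.trans ?_⟩
    rw [one_mul]
    have := le_abs_self (S x)
    gcongr
  · refine limsup_eq (fun ε hε => ?_) fun ε hε => ?_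
    · filter_upwards [hup ε hε, hb] with x h1 h2
      refine le_trans ?_ h1
      have := le_abs_self (S x)
      gcongr
    · rw [frequently_atTop]
      intro X
      obtain ⟨x, h1, h2, h3⟩ := hlo 1 (Or.inl rfl) ε hε X
      exact ⟨x, h1, by simpa using h3⟩
  · refine liminf_eq (fun ε hε => ?_) fun ε hε => ?_
    · filter_upwards [hup ε hε, hb] with x h1 h2
      have h3 : -(|S x| / x) ≤ S x / x := by
        rw [← neg_div]
        have := neg_abs_le (S x)
        gcongr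
      linarith
    · rw [frequently_atTop]
      intro X
      obtain ⟨x, h1, h2, h3⟩ := hlo (-1) (Or.inr rfl) ε hε X
      exact ⟨x, h1, by linarith⟩

end Pool.Agent.K1H98.OM
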